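import Mathlib

/-!
Orbits of the quadratic maps `z ↦ z + α c_n z (1 - z)`: escape to infinity.
-/

namespace Pool.Agent.Q21.KJ

open Complex Filter Topology

/-- the orbit of `z` under the maps `z ↦ z + α c_n z (1 - z)` -/
noncomputable def q (α : ℂ) (c : ℕ → ℝ) : ℕ → ℂ → ℂ
  | 0, z => z
  | n + 1, z => q α c n z + α * (c n : ℂ) * (q α c n z * (1 - q α c n z))

/-- all later coefficients are not too small -/
def Hg (c : ℕ → ℝ) (n : ℕ) : Prop := ∀ i : ℕ, (1 / 2 : ℝ) ^ i / 256 ≤ |c (n + i)|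

variable {α : ℂ} {c : ℕ → ℝ}

theorem q_succ (n : ℕ) (z : ℂ) :
    q α c (n + 1) z = q α c n z * (1 + α * (c n : ℂ) - α * (c n : ℂ) * q α c n z) := by
  simp only [q]; ring

theorem norm_co (n : ℕ) : ‖α * (c n : ℂ)‖ = ‖α‖ * |c n| := by
  rw [norm_mul, Complex.norm_real, Real.norm_eq_abs]

theorem q_step' (n : ℕ) (z : ℂ) :
    ‖q α c n z‖ * (‖α‖ * |c n| * ‖q α c n z‖ - (1 + ‖α‖ * |c n|)) ≤ ‖q α c (n + 1) z‖ := by
  rw [q_succ, norm_mul]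
  refine mul_le_mul_of_nonneg_left ?_ (norm_nonneg _)
  have h1 : ‖α * (c n : ℂ) * q α c n z‖ = ‖α‖ * |c n| * ‖q α c n z‖ := by
    rw [norm_mul, norm_co]
  have h2 : ‖1 + α * (c n : ℂ)‖ ≤ 1 + ‖α‖ * |c n| := by
    refine (norm_add_le _ _).trans ?_
    rw [norm_co]; simp
  have h3 := norm_sub_norm_le (α * (c n : ℂ) * q α c n z) (1 + α * (c n : ℂ))
  rw [norm_sub_rev] at h3
  linarith

theorem q_step (hα1 : ‖α‖ < 1) (hc : ∀ n, |c n| ≤ 1) (n : ℕ) (z : ℂ) :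
    ‖q α c n z‖ * (‖α‖ * |c n| * ‖q α c n z‖ - 2) ≤ ‖q α c (n + 1) z‖ := by
  refine le_trans ?_ (q_step' n z)
  refine mul_le_mul_of_nonneg_left ?_ (norm_nonneg _)
  have : ‖α‖ * |c n| ≤ 1 * 1 := mul_le_mul hα1.le (hc n) (abs_nonneg _) zero_le_one
  linarith

theorem escape (hα : 0 < ‖α‖) (hα1 : ‖α‖ < 1) (hc : ∀ n, |c n| ≤ 1) {n : ℕ} (hH : Hg c n) {z : ℂ}
    (hz : 2048 / ‖α‖ < ‖q α c n z‖) (i : ℕ) : 2048 / ‖α‖ * 4 ^ i ≤ ‖q α c (n + i) z‖ := by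
  induction i with
  | zero => simpa using hz.le
  | succ i ih =>
    have h1 := q_step hα1 hc (n + i) z
    have h2 := hH i
    have h3 : 8 ≤ ‖α‖ * |c (n + i)| * ‖q α c (n + i) z‖ := by
      have h4 : ‖α‖ * ((1 / 2 : ℝ) ^ i / 256) * (2048 / ‖α‖ * 4 ^ i) ≤
          ‖α‖ * |c (n + i)| * ‖q α c (n + i) z‖ := by
        apply mul_le_mul _ ih (by positivity) (by positivity)
        exact mul_le_mul_of_nonneg_left h2 hα.le
      have h5 : ‖α‖ * ((1 / 2 : ℝ) ^ i / 256) * (2048 / ‖α‖ * 4 ^ i) = 8 * 2 ^ i := by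
        have : (4 : ℝ) ^ i = 2 ^ i * 2 ^ i := by rw [← mul_pow]; norm_num
        rw [this]
        have h6 : (1 / 2 : ℝ) ^ i * 2 ^ i = 1 := by rw [← mul_pow]; norm_num
        field_simp
        field_simp at h6
        nlinarith [h6]
      have h7 : (1 : ℝ) ≤ 2 ^ i := one_le_pow₀ (by norm_num)
      linarith
    have h8 : ‖q α c (n + i) z‖ * 4 ≤ ‖q α c (n + i) z‖ * (‖α‖ * |c (n + i)| * ‖q α c (n + i) z‖ - 2) :=
      mul_le_mul_of_nonneg_left (by linarith) (norm_nonneg _)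
    have h9 : n + (i + 1) = n + i + 1 := rfl
    rw [h9, pow_succ]
    nlinarith

/-- one step in the rescaled variable `c_0 α q_n` -/
theorem step {j : ℕ} {z : ℂ} {ρ κ a : ℝ} (h0 : 0 < ‖α‖ * |c 0|) (hρ : ρ * |c 0| ≤ |c j|)
    (hα1 : ‖α‖ < 1) (hκ : 1 + |c j| ≤ κ) (ha : a ≤ ‖α‖ * |c 0| * ‖q α c j z‖) (h0a : 0 ≤ a) (hρ0 : 0 ≤ ρ)
    (hκa : κ ≤ ρ * a) : a * (ρ * a - κ) ≤ ‖α‖ * |c 0| * ‖q α c (j + 1) z‖ := by
  have h1 := q_step' (α := α) (c := c) j z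
  have h2 : ‖α‖ * |c j| ≤ |c j| := by nlinarith [abs_nonneg (c j)]
  set t := ‖α‖ * |c 0| * ‖q α c j z‖ with ht
  have h3 : ρ * t ≤ ‖α‖ * |c j| * ‖q α c j z‖ := by
    rw [ht]
    have : 0 ≤ ‖α‖ * ‖q α c j z‖ := by positivity
    nlinarith
  have h4 : t * (ρ * t - κ) ≤ ‖α‖ * |c 0| * ‖q α c (j + 1) z‖ := by
    calc t * (ρ * t - κ) ≤ t * (‖α‖ * |c j| * ‖q α c j z‖ - (1 + ‖α‖ * |c j|)) :=
          mul_le_mul_of_nonneg_left (by linarith) (h0a.trans ha)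
      _ = ‖α‖ * |c 0| * (‖q α c j z‖ * (‖α‖ * |c j| * ‖q α c j z‖ - (1 + ‖α‖ * |c j|))) := by
          rw [ht]; ring
      _ ≤ _ := mul_le_mul_of_nonneg_left h1 h0.le
  refine le_trans ?_ h4
  have h5 : ρ * a ≤ ρ * t := mul_le_mul_of_nonneg_left ha hρ0
  exact mul_le_mul ha (by linarith) (by linarith) (h0a.trans ha)

theorem w_one (h0 : α * (c 0 : ℂ) ≠ 0) (y : ℝ) :
    α * (c 0 : ℂ) * q α c 1 ((1 + α * (c 0 : ℂ)) / (2 * (α * (c 0 : ℂ))) * (1 + y * I)) =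
      (1 + α * (c 0 : ℂ)) ^ 2 / 4 * (1 + (y : ℂ) ^ 2) := by
  set b := α * (c 0 : ℂ) with hb
  have h1 : q α c 1 ((1 + b) / (2 * b) * (1 + y * I)) =
      (1 + b) / (2 * b) * (1 + y * I) * (1 + b - b * ((1 + b) / (2 * b) * (1 + y * I))) := by
    rw [q_succ]; rfl
  have h2 : b * ((1 + b) / (2 * b) * (1 + y * I)) = (1 + b) / 2 * (1 + y * I) := by
    field_simp
  have h3 : b * ((1 + b) / (2 * b) * (1 + y * I) * (1 + b - b * ((1 + b) / (2 * b) * (1 + y * I)))) =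
      (b * ((1 + b) / (2 * b) * (1 + y * I))) * (1 + b - b * ((1 + b) / (2 * b) * (1 + y * I))) := by ring
  rw [h1, h3, h2]
  linear_combination -(1 + b) ^ 2 / 4 * (y : ℂ) ^ 2 * I_sq

/-- the critical line -/
noncomputable def ln (α : ℂ) (c : ℕ → ℝ) (y : ℝ) : ℂ :=
  (1 + α * (c 0 : ℂ)) / (2 * (α * (c 0 : ℂ))) * (1 + y * I)

theorem re_w_one (hα : 0 < ‖α‖) (hα1 : ‖α‖ < 1) (h0 : c 0 ≠ 0) (h1 : |c 0| ≤ 1 / 65536) (y : ℝ) :
    0.2499 ≤ (α * (c 0 : ℂ) * q α c 1 (ln α c y)).re := by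
  have hb : α * (c 0 : ℂ) ≠ 0 := mul_ne_zero (norm_pos_iff.1 hα) (by exact_mod_cast h0)
  rw [ln, w_one hb]
  set b := α * (c 0 : ℂ) with hbd
  have hbn : ‖b‖ ≤ 1 / 65536 := by
    rw [hbd, norm_co]
    nlinarith [abs_nonneg (c 0)]
  have h2 : ((1 + b) ^ 2 / 4 * (1 + (y : ℂ) ^ 2)).re = (1 + y ^ 2) * (((1 + b) ^ 2).re / 4) := by
    have : (1 + b) ^ 2 / 4 * (1 + (y : ℂ) ^ 2) = (((1 + y ^ 2) / 4 : ℝ) : ℂ) * (1 + b) ^ 2 := by
      push_cast; ring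
    rw [this, Complex.re_ofReal_mul]; ring
  rw [h2]
  have h3 : (0.9996 : ℝ) ≤ ((1 + b) ^ 2).re := by
    have h4 : ((1 + b) ^ 2).re = 1 + 2 * b.re + (b ^ 2).re := by
      have : (1 + b) ^ 2 = 1 + (2 : ℝ) * b + b ^ 2 := by push_cast; ring
      rw [this, Complex.add_re, Complex.add_re, Complex.re_ofReal_mul]; simp
    have h5 := Complex.abs_re_le_norm b
    have h6 := Complex.abs_re_le_norm (b ^ 2)
    rw [norm_pow] at h6
    have h7 : ‖b‖ ^ 2 ≤ 1 / 65536 := by nlinarith [norm_nonneg b]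
    have h8 := (abs_le.1 (h5.trans hbn)).1
    have h9 := (abs_le.1 (h6.trans h7)).1
    rw [h4]; norm_num at *; linarith
  have h10 : (1 : ℝ) ≤ 1 + y ^ 2 := by nlinarith [sq_nonneg y]
  norm_num at h3 ⊢
  nlinarith

theorem norm_w (n : ℕ) (z : ℂ) : ‖α * (c 0 : ℂ) * q α c n z‖ = ‖α‖ * |c 0| * ‖q α c n z‖ := by
  rw [norm_mul, norm_co]

theorem w_one_le (hα : 0 < ‖α‖) (hα1 : ‖α‖ < 1) (h0 : c 0 ≠ 0) (h1 : |c 0| ≤ 1 / 65536) (y : ℝ) :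
    0.2499 ≤ ‖α‖ * |c 0| * ‖q α c 1 (ln α c y)‖ := by
  rw [← norm_w]
  exact (re_w_one hα hα1 h0 h1 y).trans ((le_abs_self _).trans (Complex.abs_re_le_norm _))

/-- large values stay large -/
theorem tail (hα : 0 < ‖α‖) (hα1 : ‖α‖ < 1) (hc : ∀ n, |c n| ≤ 1) (h0 : c 0 ≠ 0) {z : ℂ} {k m : ℕ}
    (hk : 1 ≤ ‖α‖ * |c 0| * ‖q α c k z‖) (hkm : k ≤ m) (h4 : ∀ j, k ≤ j → j < m → 4 * |c 0| ≤ |c j|) :
    1 ≤ ‖α‖ * |c 0| * ‖q α c m z‖ := by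
  have hp : 0 < ‖α‖ * |c 0| := mul_pos hα (abs_pos.2 h0)
  induction m, hkm using Nat.le_induction with
  | base => exact hk
  | succ m hm ih =>
    have h5 := ih (fun j hj hjm => h4 j hj (by omega))
    have h6 := step (z := z) hp (h4 m hm (by omega)) hα1 (κ := 2) (by linarith [hc m]) h5 (by norm_num)
      (by norm_num) (by norm_num)
    linarith

theorem final (hα : 0 < ‖α‖) (h0 : c 0 ≠ 0) (h1 : |c 0| ≤ 1 / 65536) {z : ℂ} {m : ℕ}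
    (hk : 1 ≤ ‖α‖ * |c 0| * ‖q α c m z‖) : 2048 / ‖α‖ < ‖q α c m z‖ := by
  rw [div_lt_iff₀ hα]
  have h2 : ‖α‖ * |c 0| * ‖q α c m z‖ ≤ (‖q α c m z‖ * ‖α‖) * (1 / 65536) := by
    have : 0 ≤ ‖α‖ * ‖q α c m z‖ := by positivity
    nlinarith
  linarith

/-- the even case -/
theorem line_even (hα : 0 < ‖α‖) (hα1 : ‖α‖ < 1) (hc : ∀ n, |c n| ≤ 1) (h0 : c 0 ≠ 0)
    (h1 : |c 0| ≤ 1 / 65536) (h2 : ∀ j, 1 ≤ j → j < 14 → 100 * |c 0| ≤ |c j|) (y : ℝ) :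
    2048 / ‖α‖ < ‖q α c 14 (ln α c y)‖ := by
  have hp : 0 < ‖α‖ * |c 0| := mul_pos hα (abs_pos.2 h0)
  have h3 := step hp (h2 1 le_rfl (by norm_num)) hα1 (κ := 2) (by linarith [hc 1])
    (w_one_le hα hα1 h0 h1 y) (by norm_num) (by norm_num) (by norm_num)
  have h4 : 1 ≤ ‖α‖ * |c 0| * ‖q α c 2 (ln α c y)‖ := by norm_num at h3 ⊢; linarith
  refine final hα h0 h1 (tail hα hα1 hc h0 h4 (by norm_num) (fun j hj hj2 => ?_))
  have := h2 j (by omega) hj2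
  linarith [abs_nonneg (c 0)]

/-- the case of odd `L ≥ 5` -/
theorem line_five (hα : 0 < ‖α‖) (hα1 : ‖α‖ < 1) (hc : ∀ n, |c n| ≤ 1) (h0 : c 0 ≠ 0)
    (h1 : |c 0| ≤ 1 / 65536) (h2 : ∀ j, 1 ≤ j → j < 14 → 0.99 * 5 ^ j * |c 0| ≤ |c j|)
    (h3 : ∀ j, 1 ≤ j → j ≤ 4 → |c j| ≤ 0.0002) (y : ℝ) :
    2048 / ‖α‖ < ‖q α c 14 (ln α c y)‖ := by
  have hp : 0 < ‖α‖ * |c 0| := mul_pos hα (abs_pos.2 h0)
  have e1 := step hp (h2 1 le_rfl (by norm_num)) hα1 (κ := 1.0002)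
    (by have := h3 1 (by norm_num) (by norm_num); norm_num at this ⊢; linarith)
    (w_one_le hα hα1 h0 h1 y) (by norm_num) (by norm_num) (by norm_num)
  have f1 : 0.0591 ≤ ‖α‖ * |c 0| * ‖q α c 2 (ln α c y)‖ := by norm_num at e1 ⊢; linarith
  have e2 := step hp (h2 2 (by norm_num) (by norm_num)) hα1 (κ := 1.0002)
    (by have := h3 2 (by norm_num) (by norm_num); norm_num at this ⊢; linarith)
    f1 (by norm_num) (by norm_num) (by norm_num)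
  have f2 : 0.0273 ≤ ‖α‖ * |c 0| * ‖q α c 3 (ln α c y)‖ := by norm_num at e2 ⊢; linarith
  have e3 := step hp (h2 3 (by norm_num) (by norm_num)) hα1 (κ := 1.0002)
    (by have := h3 3 (by norm_num) (by norm_num); norm_num at this ⊢; linarith)
    f2 (by norm_num) (by norm_num) (by norm_num)
  have f3 : 0.0648 ≤ ‖α‖ * |c 0| * ‖q α c 4 (ln α c y)‖ := by norm_num at e3 ⊢; linarith
  have e4 := step hp (h2 4 (by norm_num) (by norm_num)) hα1 (κ := 1.0002)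
    (by have := h3 4 (by norm_num) (by norm_num); norm_num at this ⊢; linarith)
    f3 (by norm_num) (by norm_num) (by norm_num)
  have f4 : 1 ≤ ‖α‖ * |c 0| * ‖q α c 5 (ln α c y)‖ := by norm_num at e4 ⊢; linarith
  refine final hα h0 h1 (tail hα hα1 hc h0 f4 (by norm_num) (fun j hj hj2 => ?_))
  have h5 := h2 j (by omega) hj2
  have h6 : (5 : ℝ) ≤ 5 ^ j := le_self_pow₀ (by norm_num) (by omega)
  refine le_trans ?_ h5
  refine mul_le_mul_of_nonneg_right ?_ (abs_nonneg _)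
  norm_num; linarith

/-- the case `L = 3` -/
theorem line_three (hα : 0 < ‖α‖) (hα1 : ‖α‖ < 1) (hc : ∀ n, |c n| ≤ 1) (h0 : c 0 ≠ 0)
    (h1 : |c 0| ≤ 1 / 65536) (h2 : ∀ j, 1 ≤ j → j < 14 → 0.99 * 3 ^ j * |c 0| ≤ |c j|)
    (h3 : ∀ j, 1 ≤ j → j ≤ 4 → |c j| ≤ 0.0002) (hc1 : c 1 = (4 * c 0 ^ 2 - 3) * c 0) (y : ℝ) :
    2048 / ‖α‖ < ‖q α c 14 (ln α c y)‖ := by
  have hp : 0 < ‖α‖ * |c 0| := mul_pos hα (abs_pos.2 h0)
  have e0 := re_w_one hα hα1 h0 h1 y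
  have e0' := w_one_le hα hα1 h0 h1 y
  set z := ln α c y with hz
  set w := α * (c 0 : ℂ) * q α c 1 z with hw
  have k1 : α * (c 0 : ℂ) * q α c 2 z = w * (1 + α * (c 1 : ℂ) + ((3 - 4 * c 0 ^ 2 : ℝ) : ℂ) * w) := by
    rw [q_succ, hw, hc1]; push_cast; ring
  have k2 : ‖α‖ * |c 0| * ‖q α c 2 z‖ = ‖w‖ * ‖1 + α * (c 1 : ℂ) + ((3 - 4 * c 0 ^ 2 : ℝ) : ℂ) * w‖ := by
    rw [← norm_w, k1, norm_mul]
  have k3 : (1.7 : ℝ) ≤ ‖1 + α * (c 1 : ℂ) + ((3 - 4 * c 0 ^ 2 : ℝ) : ℂ) * w‖ := by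
    refine le_trans ?_ ((le_abs_self _).trans (Complex.abs_re_le_norm _))
    rw [Complex.add_re, Complex.add_re, Complex.re_ofReal_mul]
    have h5 := Complex.abs_re_le_norm (α * (c 1 : ℂ))
    rw [norm_co] at h5
    have h6 := h3 1 (by norm_num) (by norm_num)
    have h7 : ‖α‖ * |c 1| ≤ 0.0002 := by
      have : ‖α‖ * |c 1| ≤ 1 * 0.0002 := mul_le_mul hα1.le h6 (abs_nonneg _) zero_le_one
      linarith
    have h8 := (abs_le.1 (h5.trans h7)).1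
    have h9 : c 0 ^ 2 ≤ 1 / 65536 := by
      rw [← sq_abs]; nlinarith [abs_nonneg (c 0)]
    have h10 : (2.9 : ℝ) ≤ 3 - 4 * c 0 ^ 2 := by norm_num; linarith
    have h11 : (2.9 : ℝ) * 0.2499 ≤ (3 - 4 * c 0 ^ 2) * w.re :=
      mul_le_mul h10 e0 (by norm_num) (by linarith)
    simp only [Complex.one_re]
    norm_num at *
    linarith
  have f1 : 0.42 ≤ ‖α‖ * |c 0| * ‖q α c 2 z‖ := by
    rw [k2]
    have : (0.2499 : ℝ) * 1.7 ≤ ‖w‖ * ‖1 + α * (c 1 : ℂ) + ((3 - 4 * c 0 ^ 2 : ℝ) : ℂ) * w‖ := by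
      refine mul_le_mul ?_ k3 (by norm_num) (norm_nonneg _)
      rw [hw, norm_w]; exact e0'
    norm_num at this ⊢
    linarith
  have e2 := step hp (h2 2 (by norm_num) (by norm_num)) hα1 (κ := 1.0002)
    (by have := h3 2 (by norm_num) (by norm_num); norm_num at this ⊢; linarith)
    f1 (by norm_num) (by norm_num) (by norm_num)
  have f2 : 1 ≤ ‖α‖ * |c 0| * ‖q α c 3 z‖ := by norm_num at e2 ⊢; linarith
  refine final hα h0 h1 (tail hα hα1 hc h0 f2 (by norm_num) (fun j hj hj2 => ?_))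
  have h5 := h2 j (by omega) hj2
  have h6 : (3 : ℝ) ^ 2 ≤ 3 ^ j := pow_le_pow_right₀ (by norm_num) (by omega)
  refine le_trans ?_ h5
  refine mul_le_mul_of_nonneg_right ?_ (abs_nonneg _)
  norm_num at *; linarith

end Pool.Agent.Q21.KJ
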