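import Pool.Agent.Q21.KJ.Core

/-!
A set of positive measure of parameters `u` near `1/4` whose orbit under `u ↦ L u` stays away from `1/4` and `3/4`.
-/

namespace Pool.Agent.Q21.KJ

open Filter Topology MeasureTheory Set

/-- `cos (2πu)` -/
noncomputable def cT (u : UnitAddCircle) : ℝ := ((AddCircle.toCircle u : Circle) : ℂ).re

theorem cT_coe (x : ℝ) : cT (x : UnitAddCircle) = Real.cos (2 * Real.pi * x) := by
  rw [cT, AddCircle.toCircle_apply_mk, Circle.coe_exp, Complex.exp_ofReal_mul_I_re]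
  congr 1; ring

theorem continuous_cT : Continuous cT :=
  Complex.continuous_re.comp (continuous_subtype_val.comp AddCircle.continuous_toCircle)

theorem abs_cT_le (u : UnitAddCircle) : |cT u| ≤ 1 := by
  have h1 := Complex.abs_re_le_norm ((AddCircle.toCircle u : Circle) : ℂ)
  rw [Circle.norm_coe] at h1
  exact h1

theorem abs_sin_ge {y : ℝ} (hy : |y| ≤ Real.pi / 2) : 2 / Real.pi * |y| ≤ |Real.sin y| := by
  rcases le_total 0 y with h | h
  · rw [abs_of_nonneg h] at hy ⊢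
    exact (Real.mul_le_sin h hy).trans (le_abs_self _)
  · rw [abs_of_nonpos h] at hy ⊢
    have h2 := Real.mul_le_sin (by linarith : 0 ≤ -y) hy
    rw [Real.sin_neg] at h2
    exact h2.trans (neg_le_abs _)

/-- the set where `|cos (2πu)|` is small has small measure -/
theorem meas_small (ε : ℝ) : volume {v : UnitAddCircle | |cT v| < ε} ≤ ENNReal.ofReal ε := by
  have hm : MeasurableSet {v : UnitAddCircle | |cT v| < ε} :=
    (isOpen_lt continuous_cT.abs continuous_const).measurableSet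
  rw [← (UnitAddCircle.measurePreserving_mk 0).measure_preimage hm.nullMeasurableSet]
  rw [Measure.restrict_apply (hm.preimage (UnitAddCircle.measurePreserving_mk 0).measurable)]
  have hsub : ((fun x : ℝ => (x : UnitAddCircle)) ⁻¹' {v : UnitAddCircle | |cT v| < ε}) ∩ Ioc (0 : ℝ) (0 + 1) ⊆
      Ioo (1 / 4 - ε / 4) (1 / 4 + ε / 4) ∪ Ioo (3 / 4 - ε / 4) (3 / 4 + ε / 4) := by
    rintro x ⟨h1, h2⟩
    simp only [mem_preimage, mem_setOf_eq, cT_coe] at h1
    have hpi := Real.pi_pos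
    rcases le_total x (1 / 2) with h | h
    · left
      have e1 : Real.cos (2 * Real.pi * x) = Real.sin (2 * Real.pi * (1 / 4 - x)) := by
        rw [← Real.sin_pi_div_two_sub]; congr 1; ring
      have e2 : |2 * Real.pi * (1 / 4 - x)| ≤ Real.pi / 2 := by
        rw [abs_le]
        constructor
        · nlinarith [h2.1]
        · nlinarith [h2.1]
      have e3 := abs_sin_ge e2
      rw [← e1] at e3
      have e4 : 2 / Real.pi * |2 * Real.pi * (1 / 4 - x)| = 4 * |1 / 4 - x| := by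
        rw [abs_mul, abs_of_pos (by positivity : (0:ℝ) < 2 * Real.pi)]
        field_simp
        ring
      rw [e4] at e3
      have e5 : |1 / 4 - x| < ε / 4 := by linarith
      rw [abs_lt] at e5
      constructor <;> linarith
    · right
      have e1 : Real.cos (2 * Real.pi * x) = -Real.sin (2 * Real.pi * (3 / 4 - x)) := by
        have : 2 * Real.pi * (3 / 4 - x) = Real.pi / 2 - (2 * Real.pi * x - Real.pi) := by ring
        rw [this, Real.sin_pi_div_two_sub, Real.cos_sub_pi]; ring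
      have e2 : |2 * Real.pi * (3 / 4 - x)| ≤ Real.pi / 2 := by
        rw [abs_le]
        have := h2.2
        constructor
        · nlinarith
        · nlinarith
      have e3 := abs_sin_ge e2
      rw [← abs_neg (Real.sin _), ← e1] at e3
      have e4 : 2 / Real.pi * |2 * Real.pi * (3 / 4 - x)| = 4 * |3 / 4 - x| := by
        rw [abs_mul, abs_of_pos (by positivity : (0:ℝ) < 2 * Real.pi)]
        field_simp
        ring
      rw [e4] at e3
      have e5 : |3 / 4 - x| < ε / 4 := by linarith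
      rw [abs_lt] at e5
      constructor <;> linarith
  refine (measure_mono hsub).trans ((measure_union_le _ _).trans ?_)
  rw [Real.volume_Ioo, Real.volume_Ioo]
  rcases le_total 0 ε with h | h
  · rw [← ENNReal.ofReal_add (by linarith) (by linarith)]
    exact ENNReal.ofReal_le_ofReal (by linarith)
  · rw [ENNReal.ofReal_of_nonpos (by linarith), ENNReal.ofReal_of_nonpos (by linarith)]
    simp

variable (L : ℕ)

/-- the parameters whose whole orbit has coefficients that are not too small -/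
def H0 : Set UnitAddCircle := {v | ∀ i : ℕ, (1 / 2 : ℝ) ^ i / 256 ≤ |cT (L ^ i • v)|}

theorem isClosed_H0 : IsClosed (H0 L) := by
  have : H0 L = ⋂ i : ℕ, {v | (1 / 2 : ℝ) ^ i / 256 ≤ |cT (L ^ i • v)|} := by
    ext v; simp [H0]
  rw [this]
  exact isClosed_iInter fun i => isClosed_le continuous_const
    ((continuous_cT.comp (continuous_const_smul _)).abs)

variable {L}

theorem mp_smul (hL : 2 ≤ L) (i : ℕ) :
    MeasurePreserving (fun v : UnitAddCircle => L ^ i • v) volume volume := by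
  rcases Nat.eq_zero_or_pos i with rfl | hi
  · have : (fun v : UnitAddCircle => L ^ 0 • v) = id := by ext v; simp
    rw [this]
    exact MeasurePreserving.id _
  · exact (AddCircle.ergodic_nsmul (Nat.one_lt_pow hi.ne' (by omega))).toMeasurePreserving

theorem meas_H0_compl (hL : 2 ≤ L) : volume (H0 L)ᶜ ≤ ENNReal.ofReal (1 / 128) := by
  have h1 : (H0 L)ᶜ ⊆ ⋃ i : ℕ, (fun v : UnitAddCircle => L ^ i • v) ⁻¹' {v | |cT v| < (1 / 2 : ℝ) ^ i / 256} := by
    intro v hv
    simp only [H0, mem_compl_iff, mem_setOf_eq, not_forall, not_le] at hv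
    simpa using hv
  refine (measure_mono h1).trans ((measure_iUnion_le _).trans ?_)
  have h2 : ∀ i : ℕ, volume ((fun v : UnitAddCircle => L ^ i • v) ⁻¹' {v | |cT v| < (1 / 2 : ℝ) ^ i / 256}) ≤
      ENNReal.ofReal ((1 / 2 : ℝ) ^ i / 256) := by
    intro i
    rw [(mp_smul hL i).measure_preimage
      (isOpen_lt continuous_cT.abs continuous_const).measurableSet.nullMeasurableSet]
    exact meas_small _
  refine (ENNReal.tsum_le_tsum h2).trans ?_
  rw [← ENNReal.ofReal_tsum_of_nonneg (fun i => by positivity)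
    (summable_geometric_two.div_const 256)]
  rw [tsum_div_const, tsum_geometric_two]
  norm_num

variable (L)

/-- the orbit is good, and good again infinitely often -/
def Gd : Set UnitAddCircle := H0 L ∩ {v | ∃ᶠ n in atTop, L ^ n • v ∈ H0 L}

theorem measurable_Gd : MeasurableSet (Gd L) := by
  refine (isClosed_H0 L).measurableSet.inter ?_
  have : {v : UnitAddCircle | ∃ᶠ n in atTop, L ^ n • v ∈ H0 L} =
      limsup (fun n => (fun v : UnitAddCircle => L ^ n • v) ⁻¹' H0 L) atTop := by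
    ext v
    rw [mem_limsup_iff_frequently_mem]; rfl
  rw [this]
  exact MeasurableSet.measurableSet_limsup fun n =>
    (isClosed_H0 L).measurableSet.preimage (continuous_const_smul _).measurable

variable {L}

theorem iterate_smul (n : ℕ) (v : UnitAddCircle) : (fun v : UnitAddCircle => L • v)^[n] v = L ^ n • v := by
  induction n with
  | zero => simp
  | succ n ih => rw [Function.iterate_succ_apply', ih, pow_succ', mul_smul]

theorem meas_Gd_compl (hL : 2 ≤ L) : volume (Gd L)ᶜ ≤ ENNReal.ofReal (1 / 128) := by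
  have h1 : MeasurePreserving (fun v : UnitAddCircle => L • v) volume volume := by
    have := mp_smul hL 1
    simpa using this
  have h2 := h1.conservative.ae_mem_imp_frequently_image_mem (isClosed_H0 L).measurableSet.nullMeasurableSet
  have h3 : volume ({v | v ∈ H0 L → ∃ᶠ n in atTop, (fun v : UnitAddCircle => L • v)^[n] v ∈ H0 L}ᶜ) = 0 := h2
  have h4 : (Gd L)ᶜ ⊆ (H0 L)ᶜ ∪
      {v | v ∈ H0 L → ∃ᶠ n in atTop, (fun v : UnitAddCircle => L • v)^[n] v ∈ H0 L}ᶜ := by
    intro v hv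
    by_contra hc
    simp only [mem_union, mem_compl_iff, not_or, not_not, mem_setOf_eq] at hc
    apply hv
    refine ⟨hc.1, ?_⟩
    have := hc.2 hc.1
    simp only [iterate_smul] at this
    exact this
  refine (measure_mono h4).trans ((measure_union_le _ _).trans ?_)
  rw [h3, add_zero]
  exact meas_H0_compl hL

/-- the set of parameters -/
def Lam (L : ℕ) : Set UnitAddCircle :=
  ((fun x : ℝ => ((1 / 4 + x / (L : ℝ) ^ 14 : ℝ) : UnitAddCircle)) '' Ioo (1 / 64) (1 / 32)) ∩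
    {u | L ^ 14 • u ∈ Gd L}

theorem measurable_Lam (hL : 2 ≤ L) : MeasurableSet (Lam L) := by
  refine MeasurableSet.inter ?_ ((measurable_Gd L).preimage (continuous_const_smul _).measurable)
  have h1 : (fun x : ℝ => ((1 / 4 + x / (L : ℝ) ^ 14 : ℝ) : UnitAddCircle)) '' Ioo (1 / 64) (1 / 32) =
      (fun x : ℝ => (x : UnitAddCircle)) '' ((fun x : ℝ => 1 / 4 + x / (L : ℝ) ^ 14) '' Ioo (1 / 64) (1 / 32)) := by
    rw [image_image]
  rw [h1]
  refine IsOpen.measurableSet (QuotientAddGroup.isOpenMap_coe _ ?_)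
  have hL0 : (L : ℝ) ^ 14 ≠ 0 := pow_ne_zero _ (by exact_mod_cast (by omega : L ≠ 0))
  have h2 : (fun x : ℝ => 1 / 4 + x / (L : ℝ) ^ 14) '' Ioo (1 / 64) (1 / 32) =
      Ioo (1 / 4 + 1 / 64 / (L : ℝ) ^ 14) (1 / 4 + 1 / 32 / (L : ℝ) ^ 14) := by
    have hp : (0 : ℝ) < (L : ℝ) ^ 14 := by
      have : (0 : ℝ) < L := by exact_mod_cast (by omega : 0 < L)
      positivity
    ext t
    simp only [mem_image, mem_Ioo]
    constructor
    · rintro ⟨x, ⟨h3, h4⟩, rfl⟩
      constructor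
      · gcongr
      · gcongr
    · rintro ⟨h3, h4⟩
      refine ⟨(t - 1 / 4) * (L : ℝ) ^ 14, ⟨?_, ?_⟩, ?_⟩
      · have : 1 / 64 / (L : ℝ) ^ 14 < t - 1 / 4 := by linarith
        rwa [div_lt_iff₀ hp] at this
      · have : t - 1 / 4 < 1 / 32 / (L : ℝ) ^ 14 := by linarith
        rwa [lt_div_iff₀ hp] at this
      · field_simp
        ring
  rw [h2]
  exact isOpen_Ioo

theorem meas_Lam_pos (hL : 2 ≤ L) : 0 < volume (Lam L) := by
  have hLp : (0 : ℝ) < L := by exact_mod_cast (by omega : 0 < L)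
  have hp : (0 : ℝ) < (L : ℝ) ^ 14 := by positivity
  have hL1 : (1 : ℝ) ≤ (L : ℝ) ^ 14 := one_le_pow₀ (by exact_mod_cast (by omega : 1 ≤ L))
  set a : ℝ := (L : ℝ) ^ 14 / 4 with ha
  set B : Set ℝ := Ioo (a + 1 / 64) (a + 1 / 32) ∩ (fun x : ℝ => (x : UnitAddCircle)) ⁻¹' (Gd L) with hB
  have hmG := measurable_Gd L
  have hBpos : 0 < volume B := by
    rw [pos_iff_ne_zero]
    intro h0
    have h1 : Ioo (a + 1 / 64) (a + 1 / 32) ⊆
        B ∪ (((fun x : ℝ => (x : UnitAddCircle)) ⁻¹' (Gd L)ᶜ) ∩ Ioc a (a + 1)) := by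
      intro s hs
      by_cases h : (s : UnitAddCircle) ∈ Gd L
      · exact Or.inl ⟨hs, h⟩
      · exact Or.inr ⟨h, by linarith [hs.1], by linarith [hs.2]⟩
    have h2 := (measure_mono h1).trans (measure_union_le (μ := volume) _ _)
    rw [h0, zero_add, Real.volume_Ioo] at h2
    have h3 : volume (((fun x : ℝ => (x : UnitAddCircle)) ⁻¹' (Gd L)ᶜ) ∩ Ioc a (a + 1)) = volume (Gd L)ᶜ := by
      rw [← (UnitAddCircle.measurePreserving_mk a).measure_preimage hmG.compl.nullMeasurableSet]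
      rw [Measure.restrict_apply (hmG.compl.preimage (UnitAddCircle.measurePreserving_mk a).measurable)]
    rw [h3] at h2
    have h4 := h2.trans (meas_Gd_compl hL)
    rw [ENNReal.ofReal_le_ofReal_iff (by norm_num)] at h4
    linarith
  set A : Set ℝ := (fun t : ℝ => (L : ℝ) ^ 14 * t) ⁻¹' B with hA
  have hApos : 0 < volume A := by
    rw [hA, Real.volume_preimage_mul_left hp.ne']
    exact ENNReal.mul_pos (ENNReal.ofReal_pos.2 (by positivity)).ne' hBpos.ne'
  have hAsub : A ⊆ ((fun x : ℝ => (x : UnitAddCircle)) ⁻¹' (Lam L)) ∩ Ioc (0 : ℝ) (0 + 1) := by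
    intro t ht
    obtain ⟨⟨h1, h2⟩, h3⟩ := ht
    have h1' : 1 / 64 < (L : ℝ) ^ 14 * t - a := by linarith
    have h2' : (L : ℝ) ^ 14 * t - a < 1 / 32 := by linarith
    have e1 : (L : ℝ) ^ 14 * t - a = (L : ℝ) ^ 14 * (t - 1 / 4) := by rw [ha]; ring
    rw [e1] at h1' h2'
    have h5 : 0 < t - 1 / 4 := by
      by_contra hc
      have : (L : ℝ) ^ 14 * (t - 1 / 4) ≤ 0 := mul_nonpos_of_nonneg_of_nonpos hp.le (by linarith)
      linarith
    have h6 : t - 1 / 4 < 1 / 32 := by nlinarith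
    refine ⟨⟨⟨(L : ℝ) ^ 14 * (t - 1 / 4), ⟨h1', h2'⟩, ?_⟩, ?_⟩, ⟨by linarith, by linarith⟩⟩
    · show ((1 / 4 + (L : ℝ) ^ 14 * (t - 1 / 4) / (L : ℝ) ^ 14 : ℝ) : UnitAddCircle) = (t : UnitAddCircle)
      congr 1
      field_simp
      ring
    · show L ^ 14 • (t : UnitAddCircle) ∈ Gd L
      have e2 : L ^ 14 • (t : UnitAddCircle) = (((L : ℝ) ^ 14 * t : ℝ) : UnitAddCircle) := by
        rw [← AddCircle.coe_nsmul, nsmul_eq_mul]; push_cast; rfl
      rw [e2]
      exact h3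
  have hmL := measurable_Lam hL
  rw [← (UnitAddCircle.measurePreserving_mk 0).measure_preimage hmL.nullMeasurableSet]
  rw [Measure.restrict_apply (hmL.preimage (UnitAddCircle.measurePreserving_mk 0).measurable)]
  exact hApos.trans_le (measure_mono hAsub)

/-- the coefficients along the orbit of `u = 1/4 + x/L^14` -/
theorem cT_orbit (L : ℕ) (x : ℝ) (j : ℕ) :
    cT (L ^ j • ((1 / 4 + x / (L : ℝ) ^ 14 : ℝ) : UnitAddCircle)) =
      Real.cos ((L : ℝ) ^ j * Real.pi / 2 + 2 * Real.pi * x * (L : ℝ) ^ j / (L : ℝ) ^ 14) := by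
  rw [← AddCircle.coe_nsmul, cT_coe, nsmul_eq_mul]
  congr 1
  push_cast
  ring

theorem cos_odd (k : ℕ) (θ : ℝ) : |Real.cos (((2 * k + 1 : ℕ) : ℝ) * Real.pi / 2 + θ)| = |Real.sin θ| := by
  have : ((2 * k + 1 : ℕ) : ℝ) * Real.pi / 2 + θ = (θ + Real.pi / 2) + k * Real.pi := by
    push_cast; ring
  rw [this, Real.cos_add_nat_mul_pi, Real.cos_add_pi_div_two, abs_mul, abs_pow]
  simp

theorem cos_even (k : ℕ) (θ : ℝ) : |Real.cos (((2 * k : ℕ) : ℝ) * Real.pi / 2 + θ)| = |Real.cos θ| := by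
  have : ((2 * k : ℕ) : ℝ) * Real.pi / 2 + θ = θ + k * Real.pi := by
    push_cast; ring
  rw [this, Real.cos_add_nat_mul_pi, abs_mul, abs_pow]
  simp

/-- bounds for the first coefficients along the orbit of `u = 1/4 + x/L^14` -/
theorem first_coeffs (hL : 2 ≤ L) {x : ℝ} (hx : x ∈ Ioo (1 / 64 : ℝ) (1 / 32)) {c : ℕ → ℝ}
    (hc : c = fun j => cT (L ^ j • ((1 / 4 + x / (L : ℝ) ^ 14 : ℝ) : UnitAddCircle))) :
    c 0 ≠ 0 ∧ |c 0| ≤ 1 / 65536 ∧
    ((∀ j, 1 ≤ j → j < 14 → 100 * |c 0| ≤ |c j|) ∨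
      ((∀ j, 1 ≤ j → j < 14 → 0.99 * 5 ^ j * |c 0| ≤ |c j|) ∧ ∀ j, 1 ≤ j → j ≤ 4 → |c j| ≤ 0.0002) ∨
      ((∀ j, 1 ≤ j → j < 14 → 0.99 * 3 ^ j * |c 0| ≤ |c j|) ∧ (∀ j, 1 ≤ j → j ≤ 4 → |c j| ≤ 0.0002) ∧
        c 1 = (4 * c 0 ^ 2 - 3) * c 0)) := by
  have hpi := Real.pi_pos
  have hpi2 := Real.pi_lt_d2
  have hL2 : (2 : ℝ) ≤ L := by exact_mod_cast hL
  have hLp : (0 : ℝ) < L := by linarith
  have hp : (0 : ℝ) < (L : ℝ) ^ 14 := by positivity
  have hx0 : 0 < x := by linarith [hx.1]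
  set θ : ℕ → ℝ := fun j => 2 * Real.pi * x * (L : ℝ) ^ j / (L : ℝ) ^ 14 with hθ
  have hθpos : ∀ j, 0 < θ j := fun j => by simp only [hθ]; positivity
  have hθ2 : 2 * Real.pi * x ≤ 0.2 := by
    have := hx.2
    norm_num at hpi2 ⊢
    nlinarith
  have hθle : ∀ j, j ≤ 14 → θ j ≤ 0.2 / (L : ℝ) ^ (14 - j) := by
    intro j hj
    simp only [hθ]
    have e1 : (L : ℝ) ^ 14 = (L : ℝ) ^ j * (L : ℝ) ^ (14 - j) := by
      rw [← pow_add]; congr 1; omega
    rw [e1, div_le_div_iff₀ (by positivity) (by positivity)]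
    have : 0 < (L : ℝ) ^ j * (L : ℝ) ^ (14 - j) := by positivity
    nlinarith
  have hθle2 : ∀ j, j ≤ 14 → θ j ≤ 0.2 := by
    intro j hj
    refine (hθle j hj).trans (div_le_self (by norm_num) (one_le_pow₀ (by linarith)))
  have hθj : ∀ j, θ j = (L : ℝ) ^ j * θ 0 := by
    intro j; simp only [hθ]; field_simp
  have hcj : ∀ j, c j = Real.cos (((L ^ j : ℕ) : ℝ) * Real.pi / 2 + θ j) := by
    intro j; rw [hc]; simp only [cT_orbit, hθ]; push_cast; rfl
  have hc0 : |c 0| = Real.sin (θ 0) := by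
    have h1 := cos_odd 0 (θ 0)
    rw [hcj 0]
    have h2 : ((L ^ 0 : ℕ) : ℝ) = ((2 * 0 + 1 : ℕ) : ℝ) := by norm_num
    rw [h2, h1, abs_of_pos (Real.sin_pos_of_pos_of_lt_pi (hθpos 0) (by linarith [hθle2 0 (by norm_num), Real.pi_gt_three]))]
  have hc0pos : 0 < |c 0| := by
    rw [hc0]; exact Real.sin_pos_of_pos_of_lt_pi (hθpos 0) (by linarith [hθle2 0 (by norm_num), Real.pi_gt_three])
  have hc0θ : |c 0| ≤ θ 0 := by rw [hc0]; exact Real.sin_le (hθpos 0).le
  have hc0le : |c 0| ≤ 1 / 65536 := by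
    refine hc0θ.trans ((hθle 0 (by norm_num)).trans ?_)
    have : (2 : ℝ) ^ 14 ≤ (L : ℝ) ^ (14 - 0) := pow_le_pow_left₀ (by norm_num) hL2 _
    rw [div_le_div_iff₀ (by positivity) (by norm_num)]
    norm_num at this ⊢
    linarith
  have hne : c 0 ≠ 0 := abs_pos.1 hc0pos
  refine ⟨hne, hc0le, ?_⟩
  rcases Nat.even_or_odd' L with ⟨k, hk | hk⟩
  · left
    intro j hj1 hj2
    obtain ⟨m, hm⟩ : ∃ m, L ^ j = 2 * m := by
      refine ⟨k * L ^ (j - 1), ?_⟩
      have : L ^ j = L * L ^ (j - 1) := by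
        rw [← pow_succ']; congr 1; omega
      rw [this]
      nth_rewrite 1 [hk]
      ring
    rw [hcj j, hm, cos_even]
    have h1 := Real.one_sub_sq_div_two_le_cos (x := θ j)
    have h2 := hθle2 j (by omega)
    have h3 := hθpos j
    have h4 : (0.9 : ℝ) ≤ Real.cos (θ j) := by norm_num at *; nlinarith
    have h5 : Real.cos (θ j) ≤ |Real.cos (θ j)| := le_abs_self _
    norm_num at *
    linarith
  · right
    have hL3 : 3 ≤ L := by omega
    have hL3' : (3 : ℝ) ≤ L := by exact_mod_cast hL3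
    have habs : ∀ j, j ≤ 14 → |c j| = Real.sin (θ j) := by
      intro j hj
      obtain ⟨m, hm⟩ : Odd (L ^ j) := Odd.pow ⟨k, hk⟩
      rw [hcj j, hm, cos_odd, abs_of_pos (Real.sin_pos_of_pos_of_lt_pi (hθpos j)
        (by linarith [hθle2 j hj, Real.pi_gt_three]))]
    have hlow : ∀ j, j < 14 → 0.99 * (L : ℝ) ^ j * |c 0| ≤ |c j| := by
      intro j hj
      rw [habs j hj.le]
      have h1 := Real.sin_gt_sub_cube (hθpos j)
      have h2 := hθle2 j hj.le
      have h3 := hθpos j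
      have h4 : θ j ^ 3 ≤ 0.04 * θ j := by
        have : θ j ^ 2 ≤ 0.04 := by norm_num at *; nlinarith
        nlinarith
      have h5 : 0.99 * θ j ≤ Real.sin (θ j) := by norm_num at *; linarith
      refine le_trans ?_ h5
      rw [hθj j, mul_assoc]
      have h6 : 0 < (L : ℝ) ^ j := by positivity
      have h7 : (L : ℝ) ^ j * |c 0| ≤ (L : ℝ) ^ j * θ 0 := mul_le_mul_of_nonneg_left hc0θ h6.le
      norm_num at *
      linarith
    have hup : ∀ j, 1 ≤ j → j ≤ 4 → |c j| ≤ 0.0002 := by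
      intro j _ hj
      rw [habs j (by omega)]
      refine (Real.sin_le (hθpos j).le).trans ((hθle j (by omega)).trans ?_)
      have : (3 : ℝ) ^ 10 ≤ (L : ℝ) ^ (14 - j) :=
        (pow_le_pow_left₀ (by norm_num) hL3' 10).trans (pow_le_pow_right₀ (by linarith) (by omega))
      rw [div_le_iff₀ (by positivity)]
      norm_num at this ⊢
      linarith
    rcases Nat.lt_or_ge L 5 with h5 | h5
    · right
      have hL3e : L = 3 := by omega
      refine ⟨fun j _ hj => ?_, hup, ?_⟩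
      · have := hlow j hj
        rw [hL3e] at this
        exact_mod_cast this
      · have h1 : c 1 = Real.cos (3 * (((L ^ 0 : ℕ) : ℝ) * Real.pi / 2 + θ 0)) := by
          rw [hcj 1, hθj 1, hL3e]; congr 1; push_cast; ring
        rw [h1, Real.cos_three_mul, ← hcj 0]
        ring
    · left
      refine ⟨fun j _ hj => le_trans ?_ (hlow j hj), hup⟩
      have h6 : (5 : ℝ) ^ j ≤ (L : ℝ) ^ j := pow_le_pow_left₀ (by norm_num) (by exact_mod_cast h5) _
      refine mul_le_mul_of_nonneg_right ?_ hc0pos.le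
      norm_num
      linarith

/-- all properties of the parameters in `Lam L` -/
theorem Lam_spec (hL : 2 ≤ L) {α : ℂ} (hα : 0 < ‖α‖) (hα1 : ‖α‖ < 1) {u : UnitAddCircle} (hu : u ∈ Lam L)
    {c : ℕ → ℝ} (hc : c = fun j => cT (L ^ j • u)) :
    c 0 ≠ 0 ∧ (∀ n, |c n| ≤ 1) ∧ Hg c 14 ∧ (∃ᶠ n in atTop, Hg c n) ∧
      ∀ y : ℝ, 2048 / ‖α‖ < ‖q α c 14 (ln α c y)‖ := by
  obtain ⟨⟨x, hx, rfl⟩, h2⟩ := hu
  obtain ⟨h0, h1, h3⟩ := first_coeffs hL hx hc
  have hHg : ∀ n, L ^ n • ((1 / 4 + x / (L : ℝ) ^ 14 : ℝ) : UnitAddCircle) ∈ H0 L → Hg c n := by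
    intro n hn i
    have := hn i
    rw [hc]
    simp only
    rw [pow_add, mul_comm, mul_smul]
    exact this
  have hle : ∀ n, |c n| ≤ 1 := fun n => by rw [hc]; exact abs_cT_le _
  refine ⟨h0, hle, hHg 14 h2.1, ?_, ?_⟩
  · have h4 : ∃ᶠ n in atTop, L ^ n • (L ^ 14 • ((1 / 4 + x / (L : ℝ) ^ 14 : ℝ) : UnitAddCircle)) ∈ H0 L := h2.2
    rw [frequently_atTop] at h4 ⊢
    intro a
    obtain ⟨b, hb, h5⟩ := h4 a
    refine ⟨b + 14, by omega, hHg _ ?_⟩
    rw [pow_add, mul_smul]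
    exact h5
  · rcases h3 with h3 | h3 | h3
    · exact line_even hα hα1 hle h0 h1 h3
    · exact line_five hα hα1 hle h0 h1 h3.1 h3.2
    · exact line_three hα hα1 hle h0 h1 h3.1 h3.2.1 h3.2.2

end Pool.Agent.Q21.KJ
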